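import Pool.Agent.R516.Core
import Pool.Agent.R516.GenE

/-!
# The prime tuples conjecture on average over boxes of shifts with short sides, placed anywhere

In all but boundedly many ranges of scales the sum of `π_P(x)` over the vectors `P` of shifts in a box,
whose sides may be as short as a power of the logarithm and whose position is arbitrary, is the
predicted one times the correlation of one function `θ` with values in `[0, 18 / 5]` and mean `1`
with its translates by the position of the box.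
-/

set_option autoImplicit false

namespace Pool.Agent.Results.MP_68a45e_nt.ConstellationsInBoxes

open Finset Filter

open Classical in
/-- `π_P(x)` for `P = (m 1, ..., m j)`: the number of primes `p ≤ x` for which all the `p + m l` are
prime and for no prime `q` the integers `p` and `p + m l` meet all the residues modulo `q`. -/
noncomputable def piP {j : ℕ} (m : Fin j → ℕ) (x : ℕ) : ℕ :=
  ((range (x + 1)).filter (fun p => p.Prime ∧ (∀ l, (p + m l).Prime) ∧
    ∀ q : ℕ, q.Prime → ∃ r < q, p % q ≠ r ∧ ∀ l, (p + m l) % q ≠ r)).card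

open Classical in
/-- The sum of `π_P(x)` over the vectors `P` of `j` distinct even integers `m l` with
`M l < m l ≤ M l + H l` for all `l`. -/
noncomputable def boxSum {j : ℕ} (M H : Fin j → ℕ) (x : ℕ) : ℕ :=
  ∑ m ∈ (Fintype.piFinset (fun l => Ioc (M l) (M l + H l))).filter
    (fun m => Function.Injective m ∧ ∀ l, Even (m l)), piP m x

/-- For all `k` and `η > 0` there is `K` such that for all large `N` and every chain of scales
`(log N) ^ (k + 23) ≤ T 0`, `2 T i ≤ T (i + 1)`, `T R ≤ N / (log N) ^ (k + 4)`, for all `i < R`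
outside a set of at most `K` exceptions there is a function `θ` with values in `[0, 18 / 5]` and with
sum `x ± η N` over the integers `n < x`, for all `x ≤ N` (so that its moments are `≥ 1 - η` and
`≤ (18 / 5) ^ (j - 1) + η`), such that for all `j ≤ k`, all sides `H l` between `K T i` and
`T (i + 1)`, all positions `M l` and all `x` with `x < N` and `x + M l < N` the sum of `π_P(x)` over
the `P` of the box is `((1 / N) ∑ n ≤ x, θ n ∏ θ (n + M l) ± η) N ∏ H l / (log N) ^ (j + 1)`. -/
theorem result (k : ℕ) (η : ℝ) (hη : 0 < η) : ∃ K : ℕ, ∀ᶠ N : ℕ in atTop,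
    ∀ (R : ℕ) (T : ℕ → ℝ), Real.log N ^ (k + 23) ≤ T 0 → (∀ i < R, 2 * T i ≤ T (i + 1)) →
      T R ≤ N / Real.log N ^ (k + 4) → ∃ B : Finset ℕ, B.card ≤ K ∧ ∀ i < R, i ∉ B →
        ∃ θ : ℕ → ℝ, (∀ n, 0 ≤ θ n ∧ θ n ≤ 18 / 5) ∧
        (∀ x ≤ N, |∑ n ∈ range x, θ n - x| ≤ η * N) ∧
        (∀ j, 1 ≤ j → j ≤ k + 1 → 1 - η ≤ (∑ n ∈ range N, θ n ^ j) / N ∧
          (∑ n ∈ range N, θ n ^ j) / N ≤ (18 / 5) ^ (j - 1) + η) ∧
        ∀ j ≤ k, ∀ M H : Fin j → ℕ, (∀ l, K * T i ≤ H l ∧ (H l : ℝ) ≤ T (i + 1)) →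
          ∀ x < N, (∀ l, x + M l < N) →
            |(boxSum M H x : ℝ) / (N * (∏ l, (H l : ℝ)) / Real.log N ^ (j + 1)) -
              (∑ n ∈ range (x + 1), θ n * ∏ l, θ (n + M l)) / N| ≤ η := by
  classical
  obtain ⟨K, hK⟩ := Pool.Agent.R516.constBox (Pool.Agent.R516.winU Pool.Agent.R516.core) k η hη
  refine ⟨K, ?_⟩
  filter_upwards [hK] with N h1 R T g1 g2 g3
  obtain ⟨B, hB, h2⟩ := h1 R T g1 g2 g3
  refine ⟨B, hB, fun i hi hiB => ?_⟩
  obtain ⟨θ, t1, t2, t3, t4⟩ := h2 i hi hiB
  refine ⟨θ, t1, t2, t3, fun j hj M H hH x hx hxM => ?_⟩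
  have h3 := t4 j hj M H hH x hx hxM
  have e : ((boxSum M H x : ℕ) : ℝ) =
      ∑ m ∈ Pool.Agent.R516.bxE M H, (Pool.Agent.R516.adm m (x + 1) : ℝ) := by
    unfold boxSum Pool.Agent.R516.bxE Pool.Agent.R516.bx
    rw [Nat.cast_sum]
    refine Finset.sum_congr (by congr) fun m _ => ?_
    congr 1
    unfold piP Pool.Agent.R516.adm
    rw [Finset.filter_filter, Finset.filter_filter]
  rw [e]
  exact h3

end Pool.Agent.Results.MP_68a45e_nt.ConstellationsInBoxes
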