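import Mathlib
import Pool.Agent.R463.EG5

set_option autoImplicit false

/-!
# The Poisson law for the exact constellations of integers without small prime factors

For the integers without prime factors `p ≤ y`: for every admissible constellation `H` with at least two
elements, the places at which the constellation occurs as a block of CONSECUTIVE such integers form
asymptotically a Poisson process, in every interval longer than a fixed power of `y`, uniformly in `H`.
-/

namespace Pool.Agent.Results.MP_68a45e_nt.ExactConstellations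

open Finset Pool.Agent.H373R2.T7 Pool.Agent.W123.RP Pool.Agent.W123.RU Pool.Agent.TH464.PO
open Pool.Agent.R463.EX Pool.Agent.R463.EG

/-- `n` has no prime factor `p ≤ y` -/
def Rough (y n : ℕ) : Prop := ∀ p : ℕ, p.Prime → p ≤ y → ¬ p ∣ n

/-- The product over the primes `p ≤ y` of `1 - ν / p`, where `ν` is the number of the residue classes
modulo `p` which contain an element of `H`. -/
noncomputable def density (H : Finset ℕ) (y : ℕ) : ℝ :=
  ∏ p ∈ (Icc 1 y).filter Nat.Prime, (1 - ((H.image (· % p)).card : ℝ) / p)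

/-- the elements of `Rough y` in `[m, m + L]` are exactly the integers `m + h` with `h ∈ H` -/
def BlockAt (y : ℕ) (H : Finset ℕ) (L m : ℕ) : Prop := ∀ h ≤ L, (Rough y (m + h) ↔ h ∈ H)

/-- the number of the blocks which begin in `(n, n + T]` -/
noncomputable def count (y : ℕ) (H : Finset ℕ) (L T n : ℕ) : ℕ :=
  Set.ncard {m : ℕ | n < m ∧ m ≤ n + T ∧ BlockAt y H L m}

/-- the expected number of blocks in a window of length `T` -/
noncomputable def lam (y : ℕ) (H : Finset ℕ) (L T : ℕ) : ℝ :=
  T * density H y * Real.exp (-((L + 1) * density {0} y))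

lemma rough_iff (y n : ℕ) : Sf Qi y n ↔ Rough y n := by
  constructor
  · intro h p hp hpy hd
    exact h p (mem_pz.2 ⟨hpy, hp⟩) hd
  · intro h p hp hd
    obtain ⟨h1, h2⟩ := mem_pz.1 hp
    exact h p h2 h1 hd

lemma density_eq (H : Finset ℕ) (y : ℕ) : Vq (QH Qi H) y = density H y := by
  unfold Vq density pz
  apply Finset.prod_congr rfl
  intro p hp
  rw [nuB_QH_Qi H p (mem_filter.1 hp).2]

lemma density_zero (y : ℕ) : Vq Qi y = density {0} y := by
  unfold Vq density pz
  apply Finset.prod_congr rfl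
  intro p hp
  rw [nuB_Qi p (mem_filter.1 hp).2, image_singleton, card_singleton]

lemma Bk_iff (y : ℕ) (H : Finset ℕ) (L m : ℕ) : Bk y H L m ↔ BlockAt y H L m := by
  unfold Bk BlockAt
  simp only [rough_iff]

lemma count_eq (y : ℕ) (H : Finset ℕ) (L T n : ℕ) : NB (Bk y H L) T n = count y H L T n := by
  classical
  have e : {m : ℕ | n < m ∧ m ≤ n + T ∧ BlockAt y H L m} =
      (((Ioc n (n + T)).filter (fun m => BlockAt y H L m) : Finset ℕ) : Set ℕ) := by
    ext m
    simp only [Set.mem_ofPred_eq, coe_filter, mem_Ioc]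
    tauto
  unfold count NB
  rw [e, Set.ncard_coe_finset]
  apply Finset.card_bij (fun m _ => n + m)
  · intro m hm
    rw [mem_filter, mem_Icc] at hm
    rw [mem_filter, mem_Ioc]
    exact ⟨by omega, (Bk_iff y H L (n + m)).1 hm.2⟩
  · intro a _ b _ hab
    omega
  · intro b hb
    rw [mem_filter, mem_Ioc] at hb
    refine ⟨b - n, ?_, by omega⟩
    rw [mem_filter, mem_Icc]
    refine ⟨by omega, ?_⟩
    rw [show n + (b - n) = b by omega]
    exact (Bk_iff y H L b).2 hb.2

/-- **The Poisson law for the exact constellations.** For all `k`, `x₀`, `x₁` and `ε > 0` there are `s` and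
`y₀` such that for all `y ≥ y₀`, all intervals `(z, z + Y]` of length `Y ≥ y ^ s`, all sets `H` of at least two
and at most `k` natural numbers with `0 ∈ H` which miss a residue class modulo every prime, all `L ≥ max H`
with `L ∏_{p ≤ y} (1 - 1 / p) ≤ x₀`, all `T` with `λ = lam y H L T ≤ x₁` and all finite sets `A`: the number of
the `n` in the interval for which the number of the `m ∈ (n, n + T]`, for which the integers without prime
factors `p ≤ y` in `[m, m + L]` are exactly the `m + h`, `h ∈ H`, belongs to `A`, is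
`Y ∑_{j ∈ A} exp (- λ) λ ^ j / j!`, up to `ε Y`. -/
theorem result (k : ℕ) (x₀ x₁ ε : ℝ) (hε : 0 < ε) :
    ∃ s y₀ : ℕ, ∀ y : ℕ, y₀ ≤ y → ∀ z Y : ℕ, y ^ s ≤ Y → ∀ H : Finset ℕ, 2 ≤ H.card → H.card ≤ k →
      0 ∈ H → (∀ p : ℕ, p.Prime → ∃ c : ℕ, ∀ h ∈ H, ¬ h ≡ c [MOD p]) →
      ∀ L : ℕ, (∀ h ∈ H, h ≤ L) → L * density {0} y ≤ x₀ →
      ∀ T : ℕ, lam y H L T ≤ x₁ → ∀ A : Finset ℕ,
        |(Set.ncard {n : ℕ | z < n ∧ n ≤ z + Y ∧ count y H L T n ∈ A} : ℝ) -
            Y * ∑ j ∈ A, Real.exp (-lam y H L T) * lam y H L T ^ j / j.factorial| ≤ ε * Y := by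
  choose s y0 h using fun a : ℕ => blocks_law (a + 2) (by omega) x₀ x₁ ε hε
  refine ⟨∑ a ∈ range k, s a, (∑ a ∈ range k, y0 a) + 1, ?_⟩
  intro y hy z Y hY H hH2 hHk h0 hadm L hL hx T hT A
  obtain ⟨a, ha⟩ : ∃ a, a = H.card - 2 := ⟨_, rfl⟩
  have hak : a ∈ range k := mem_range.2 (by omega)
  have hs : s a ≤ ∑ a ∈ range k, s a := Finset.single_le_sum (fun _ _ => Nat.zero_le _) hak
  have hy0 : y0 a ≤ ∑ a ∈ range k, y0 a := Finset.single_le_sum (fun _ _ => Nat.zero_le _) hak
  have hadm' : ∀ p : ℕ, p.Prime → (H.image (· % p)).card < p := by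
    intro p hp
    obtain ⟨c, hc⟩ := hadm p hp
    have h1 : H.image (· % p) ⊆ (range p).erase (c % p) := by
      intro r hr
      rw [mem_image] at hr
      obtain ⟨b, hb, rfl⟩ := hr
      rw [mem_erase, mem_range]
      exact ⟨fun he => hc b hb he, Nat.mod_lt _ hp.pos⟩
    have h2 := card_le_card h1
    rw [card_erase_of_mem (mem_range.2 (Nat.mod_lt _ hp.pos)), card_range] at h2
    have := hp.pos
    omega
  have h1 := h a y (by omega) z Y ((Nat.pow_le_pow_right (by omega) hs).trans hY) H (by omega) h0 L hL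
    (by rw [density_zero]; exact hx) hadm' T (by
      rw [density_eq, density_zero]
      exact hT) A
  rw [density_eq, density_zero] at h1
  have h2 : (((Icc (z + 1) (z + Y)).filter (fun n => NB (Bk y H L) T n ∈ A)).card : ℕ) =
      Set.ncard {n : ℕ | z < n ∧ n ≤ z + Y ∧ count y H L T n ∈ A} := by
    rw [← Set.ncard_coe_finset]
    congr 1
    ext n
    simp only [coe_filter, mem_Icc, Set.mem_ofPred_eq, count_eq]
    constructor
    · rintro ⟨⟨a1, a2⟩, a3⟩
      exact ⟨by omega, a2, a3⟩
    · rintro ⟨a1, a2, a3⟩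
      exact ⟨⟨by omega, a2⟩, a3⟩
  unfold lam
  rw [← h2]
  convert h1 using 6

end Pool.Agent.Results.MP_68a45e_nt.ExactConstellations
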