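import Mathlib
import Pool.Agent.R463.EH2

set_option autoImplicit false

/-!
# Tuples of one prime and integers without small prime factors, exactly, in several windows

For the integers without prime factors `p ≤ y`, `y` at most a small power of `X`: the exact number of
occurrences, with a prime at a prescribed place, of every pattern in several windows, each of length up to a
constant times the average spacing, at arbitrary distances up to a fixed power of `y`.
-/

namespace Pool.Agent.Results.MP_68a45e_nt.ExactTuplesWithPrime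

open Finset Pool.Agent.H373R2.T7 Pool.Agent.W123.RP Pool.Agent.W123.RU Pool.Agent.TH464.PO
open Pool.Agent.R463.EX

/-- `n` has no prime factor `p ≤ y` -/
def Rough (y n : ℕ) : Prop := ∀ p : ℕ, p.Prime → p ≤ y → ¬ p ∣ n

/-- The product over the primes `p ≤ y` of `1 - ν / p`, where `ν` is the number of the residue classes
modulo `p` which contain an element of `H`. -/
noncomputable def density (H : Finset ℕ) (y : ℕ) : ℝ :=
  ∏ p ∈ (Icc 1 y).filter Nat.Prime, (1 - ((H.image (· % p)).card : ℝ) / p)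

/-- The number of the integers `n` in `(u, u + Y]` with `n + b` prime for which, in all windows
`(n + d, n + d + l d]`, `d ∈ D`, the elements of `Rough y` are exactly the integers `n + h` with `h ∈ H`. -/
noncomputable def patterns (D : Finset ℕ) (l : ℕ → ℕ) (H : Finset ℕ) (b y u Y : ℕ) : ℕ :=
  Set.ncard {n : ℕ | u < n ∧ n ≤ u + Y ∧ (n + b).Prime ∧
    ∀ d ∈ D, ∀ j : ℕ, d < j → j ≤ d + l d → (Rough y (n + j) ↔ j ∈ H)}

lemma rough_iff (y n : ℕ) : Sf Qi y n ↔ Rough y n := by
  constructor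
  · intro h p hp hpy hd
    exact h p (mem_pz.2 ⟨hpy, hp⟩) hd
  · intro h p hp hd
    obtain ⟨h1, h2⟩ := mem_pz.1 hp
    exact h p h2 h1 hd

lemma density_eq (H : Finset ℕ) (y : ℕ) : Vq (QH Qi H) y = density H y := by
  unfold Vq density pz
  apply Finset.prod_congr rfl
  intro p hp
  rw [nuB_QH_Qi H p (mem_filter.1 hp).2]

lemma density_zero (y : ℕ) : Vq Qi y = density {0} y := by
  unfold Vq density pz
  apply Finset.prod_congr rfl
  intro p hp
  rw [nuB_Qi p (mem_filter.1 hp).2, image_singleton, card_singleton]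

lemma patterns_eq (D : Finset ℕ) (l : ℕ → ℕ) (H : Finset ℕ) (b y u Y : ℕ) :
    exJP 1 b Qi (Jw D l) H y u Y = patterns D l H b y u Y := by
  classical
  unfold exJP patterns Jw
  rw [← Set.ncard_coe_finset]
  congr 1
  ext n
  simp only [coe_filter, mem_Ioc, Set.mem_ofPred_eq, rough_iff, mem_biUnion, one_mul]
  constructor
  · rintro ⟨⟨h1, h2⟩, h3, h4⟩
    exact ⟨h1, h2, h3, fun d hd j hj1 hj2 => h4 j ⟨d, hd, hj1, hj2⟩⟩
  · rintro ⟨h1, h2, h3, h4⟩
    exact ⟨⟨h1, h2⟩, h3, fun j ⟨d, hd, hj1, hj2⟩ => h4 d hd j hj1 hj2⟩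

lemma card_Jw (D : Finset ℕ) (l : ℕ → ℕ) (h : (D : Set ℕ).PairwiseDisjoint (fun d => Ioc d (d + l d))) :
    (Jw D l).card = ∑ d ∈ D, l d := by
  unfold Jw
  rw [card_biUnion (fun d hd d' hd' hne => h hd hd' hne)]
  apply Finset.sum_congr rfl
  intro d _
  rw [Nat.card_Ioc]
  omega

/-- **Exact tuples with a prime.** For all `k`, `m`, `A`, `x₀`, `ε > 0` and `0 < δ ≤ 1` there are `s` and
`y₀` such that for all `y ≥ y₀` and `X ≥ y ^ s`, all systems of at most `m` disjoint windows
`(d, d + l(d)]` with `d + l(d) ≤ y ^ A` and `l(d) V ≤ x₀`, `V = ∏_{p ≤ y} (1 - 1 / p)`, all sets `H` of at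
most `k` integers from the windows, all `b ∈ H` and all `(u, u + Y] ⊆ [δ X, X]` with `Y ≥ δ X`, the number of
the `n ∈ (u, u + Y]` such that `n + b` is prime and the integers without prime factors `p ≤ y` in the windows
`(n + d, n + d + l(d)]` are exactly the `n + h`, `h ∈ H`, is
`(Y / log X) ∏_{p ≤ y} (1 - ν_p(H) / p) (1 - 1 / p)⁻¹ exp (- V ∑ l(d))`, up to the factor `1 ± ε`. -/
theorem result (k m A : ℕ) (x₀ ε δ : ℝ) (hε : 0 < ε) (hδ : 0 < δ) (hδ1 : δ ≤ 1) :
    ∃ s y₀ : ℕ, ∀ y : ℕ, y₀ ≤ y → ∀ X : ℕ, y ^ s ≤ X → ∀ (D : Finset ℕ) (l : ℕ → ℕ), D.card ≤ m →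
      (∀ d ∈ D, ∀ d' ∈ D, d < d' → d + l d ≤ d') → (∀ d ∈ D, d + l d ≤ y ^ A) →
      (∀ d ∈ D, l d * density {0} y ≤ x₀) →
      ∀ H : Finset ℕ, H.card ≤ k → (∀ h ∈ H, ∃ d ∈ D, d < h ∧ h ≤ d + l d) → ∀ b ∈ H,
      ∀ u Y : ℕ, δ * X ≤ u → δ * X ≤ Y → u + Y ≤ X →
        |patterns D l H b y u Y * Real.log X -
            Y * (density H y / density {0} y) * Real.exp (-((∑ d ∈ D, l d : ℕ) * density {0} y))| ≤
          ε * (Y * (density H y / density {0} y) *
            Real.exp (-((∑ d ∈ D, l d : ℕ) * density {0} y))) := by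
  choose s y0 h using fun a : ℕ => pattPF (a + 1) (m + 1) (by omega) (by omega) x₀ ε δ A hε hδ hδ1
  refine ⟨∑ a ∈ range k, s a, (∑ a ∈ range k, y0 a) + 1, ?_⟩
  intro y hy X hX D l hD hdis hDA hx H hHk hHD b hb u Y hu hY huY
  have hpos : 0 < H.card := card_pos.2 ⟨b, hb⟩
  obtain ⟨a, ha⟩ : ∃ a, a = H.card - 1 := ⟨_, rfl⟩
  have hak : a ∈ range k := mem_range.2 (by omega)
  have hs : s a ≤ ∑ a ∈ range k, s a := Finset.single_le_sum (fun _ _ => Nat.zero_le _) hak
  have hy0 : y0 a ≤ ∑ a ∈ range k, y0 a := Finset.single_le_sum (fun _ _ => Nat.zero_le _) hak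
  have hdis' : (D : Set ℕ).PairwiseDisjoint (fun d => Ioc d (d + l d)) := by
    intro d hd d' hd' hne
    rw [Function.onFun, Finset.disjoint_left]
    intro j hj hj'
    rw [mem_Ioc] at hj hj'
    rcases Nat.lt_or_gt_of_ne hne with h1 | h1
    · have := hdis d hd d' hd' h1
      omega
    · have := hdis d' hd' d hd h1
      omega
  have h1 := h a y (by omega) X ((Nat.pow_le_pow_right (by omega) hs).trans hX) D l (by omega) hdis' hDA
    (fun d hd => by rw [density_zero]; exact hx d hd) H (by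
      intro j hj
      obtain ⟨d, hd, h2⟩ := hHD j hj
      unfold Jw
      rw [mem_biUnion]
      exact ⟨d, hd, mem_Ioc.2 h2⟩) (by omega) b hb u Y hu hY huY
  rw [patterns_eq, density_eq, ← Vz_Qi, density_zero, card_Jw D l hdis'] at h1
  exact h1

end Pool.Agent.Results.MP_68a45e_nt.ExactTuplesWithPrime
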