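import Mathlib
import Pool.Agent.R528.RM.TupQ

set_option autoImplicit false

/-!
# Tuples in random models of the primes, uniformly in all shifts

The integers are decided one after the other; no independence is assumed.  For a finite set `H` of
shifts let `tupleCount S H x` be the number of `1 ≤ n ≤ x` with `n + h ∈ S` for all `h ∈ H`.

* `result`, first part.  Let `ρ : ℕ → [0, 1]` be an arbitrary profile and suppose that almost surely
  the conditional probability of choosing `n + 1`, given the decisions up to `n`, is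
  `(1 + o(1)) ρ(n + 1)`.  Then almost surely, for all `C` and `k`, every `ε > 0` and all large `x`,
  SIMULTANEOUSLY for all sets `H` of `k` shifts in `[0, x^C]`, the number `tupleCount S H x` differs
  from `E = ∑_{1 ≤ n ≤ x} ∏_{h ∈ H} ρ(n + h)` by at most `4 k √(8 (C + 1) k x log x) + ε E`.

* `result`, second part.  Fix a finite set `Q` of primes; multiples of the primes of `Q` are never
  chosen and the other integers `n + 1` are chosen with conditional probability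
  `(1 + o(1)) ∏_{p ∈ Q} (1 - 1/p)⁻¹ / log n`.  Then almost surely, for every `k`, uniformly over all
  sets `H` of `k` shifts in `[0, x]`,
  `tupleCount S H x = (𝔖_Q(H) + o(1)) x / (log x)^k`,
  where `𝔖_Q(H)` is the product over `p ∈ Q` of the Hardy and Littlewood factors
  `(1 - ν_H(p)/p) / (1 - 1/p)^k`, with `ν_H(p)` the number of residue classes modulo `p` met by `H`.
-/

open MeasureTheory Filter
open scoped Topology

namespace Pool.Agent.Results.MP_68a45e_nt.TuplesInRandomModels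

/-- the conditional probability that `n + 1` is chosen, given the information up to `n` -/
noncomputable def density {Ω : Type} {mΩ : MeasurableSpace Ω} (μ : Measure Ω) (ℱ : Filtration ℕ mΩ)
    (A : ℕ → Set Ω) (n : ℕ) : Ω → ℝ := μ[(A (n + 1)).indicator (fun _ => (1 : ℝ)) | ℱ n]

/-- the number of `1 ≤ n ≤ x` with `n + h ∈ S` for all `h ∈ H` -/
noncomputable def tupleCount (S : Set ℕ) (H : Finset ℕ) (x : ℕ) : ℕ :=
  {n : ℕ | 1 ≤ n ∧ n ≤ x ∧ ∀ h ∈ H, n + h ∈ S}.ncard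

/-- the number of residue classes modulo `p` met by `H` -/
def classes (H : Finset ℕ) (p : ℕ) : ℕ := (H.image (· % p)).card

/-- the Hardy and Littlewood factors of the primes of `Q` -/
noncomputable def singular (Q H : Finset ℕ) : ℝ :=
  ∏ p ∈ Q, (1 - (classes H p : ℝ) / p) / (1 - 1 / (p : ℝ)) ^ H.card

lemma tupleCount_eq {Ω : Type} (A : ℕ → Set Ω) (ρ : ℕ → ℝ) (H : Finset ℕ) (x : ℕ) (ω : Ω) :
    (tupleCount {a | ω ∈ A a} H x : ℝ) = Pool.Agent.R528.RM.TN A ρ x H ∅ ω := by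
  classical
  have h1 : ∀ j, Pool.Agent.R528.RM.In A j ω = if ω ∈ A j then 1 else 0 := by
    intro j
    unfold Pool.Agent.R528.RM.In
    by_cases h : ω ∈ A j
    · rw [if_pos h, Set.indicator_of_mem h]
    · rw [if_neg h, Set.indicator_of_notMem h]
  unfold Pool.Agent.R528.RM.TN
  have h2 : ∀ n, (∏ h ∈ H, Pool.Agent.R528.RM.In A (n + 1 + h) ω) * ∏ h ∈ (∅ : Finset ℕ), ρ (n + 1 + h) =
      if (∀ h ∈ H, ω ∈ A (n + 1 + h)) then 1 else 0 := by
    intro n
    rw [Finset.prod_empty, mul_one]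
    simp only [h1]
    rw [Finset.prod_ite_zero]
    simp
  simp_rw [h2]
  rw [Finset.sum_boole]
  congr 1
  unfold tupleCount
  rw [← Set.ncard_coe_finset]
  refine (Set.ncard_congr (fun n _ => n + 1) ?_ ?_ ?_).symm
  · intro n hn
    simp only [Finset.coe_filter, Finset.mem_range, Set.mem_ofPred_eq] at hn
    exact ⟨by omega, by omega, hn.2⟩
  · intro a b _ _ h
    omega
  · intro n hn
    obtain ⟨h3, h4, h5⟩ := hn
    refine ⟨n - 1, ?_, by omega⟩
    simp only [Finset.coe_filter, Finset.mem_range, Set.mem_ofPred_eq]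
    refine ⟨by omega, fun h hh => ?_⟩
    rw [show n - 1 + 1 = n by omega]
    exact h5 h hh

lemma expected_eq {Ω : Type} (A : ℕ → Set Ω) (ρ : ℕ → ℝ) (H : Finset ℕ) (x : ℕ) (ω : Ω) :
    ∑ n ∈ Finset.Icc 1 x, ∏ h ∈ H, ρ (n + h) = Pool.Agent.R528.RM.TN A ρ x ∅ H ω := by
  unfold Pool.Agent.R528.RM.TN
  rw [Finset.range_eq_Ico, Finset.sum_Ico_add' (fun n => (∏ h ∈ (∅ : Finset ℕ), Pool.Agent.R528.RM.In A (n + h) ω) * ∏ h ∈ H, ρ (n + h)) 0 x 1]
  rw [show Finset.Ico (0 + 1) (x + 1) = Finset.Icc 1 x by ext; simp]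
  simp

end Pool.Agent.Results.MP_68a45e_nt.TuplesInRandomModels

open Pool.Agent.Results.MP_68a45e_nt.TuplesInRandomModels

theorem Pool.Agent.Results.MP_68a45e_nt.TuplesInRandomModels.result
    {Ω : Type} [mΩ : MeasurableSpace Ω] (μ : Measure Ω) [IsProbabilityMeasure μ]
    (ℱ : Filtration ℕ mΩ) (A : ℕ → Set Ω) (hA : ∀ n, MeasurableSet[ℱ n] (A n)) :
    (∀ ρ : ℕ → ℝ, (∀ n, 0 ≤ ρ n ∧ ρ n ≤ 1) →
      (∀ᵐ ω ∂μ, ∀ ε : ℝ, 0 < ε → ∀ᶠ n : ℕ in atTop, |density μ ℱ A n ω - ρ (n + 1)| ≤ ε * ρ (n + 1)) →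
      ∀ᵐ ω ∂μ, ∀ C k : ℕ, ∀ ε : ℝ, 0 < ε → ∀ᶠ x : ℕ in atTop,
        ∀ H : Finset ℕ, (∀ h ∈ H, h ≤ x ^ C) → H.card = k →
          |(tupleCount {a | ω ∈ A a} H x : ℝ) - ∑ n ∈ Finset.Icc 1 x, ∏ h ∈ H, ρ (n + h)| ≤
            4 * k * √(8 * (C + 1) * k * (x * Real.log x)) +
              ε * ∑ n ∈ Finset.Icc 1 x, ∏ h ∈ H, ρ (n + h)) ∧
    (∀ Q : Finset ℕ, (∀ p ∈ Q, p.Prime) → (∀ n, (∃ p ∈ Q, p ∣ n) → A n = ∅) →
      (∀ᵐ ω ∂μ, Tendsto (fun n : ℕ => density μ ℱ A n ω * Real.log n)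
        (atTop ⊓ 𝓟 {n : ℕ | ∀ p ∈ Q, ¬ p ∣ n + 1}) (𝓝 (∏ p ∈ Q, (1 - 1 / (p : ℝ))⁻¹))) →
      ∀ᵐ ω ∂μ, ∀ k : ℕ, ∀ ε : ℝ, 0 < ε → ∀ᶠ x : ℕ in atTop,
        ∀ H : Finset ℕ, (∀ h ∈ H, h ≤ x) → H.card = k →
          |(tupleCount {a | ω ∈ A a} H x : ℝ) * Real.log x ^ k / x - singular Q H| ≤ ε) := by
  refine ⟨fun ρ hρ hd => ?_, fun Q hQ hcop hd => ?_⟩
  · filter_upwards [Pool.Agent.R528.RM.tup_fixed hA ρ hρ hd] with ω hω C k ε hε
    filter_upwards [hω C k ε hε] with x hx H hH hHk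
    rw [tupleCount_eq A ρ, expected_eq A ρ H x ω]
    exact hx H (fun h hh => Finset.mem_range.2 (Nat.lt_succ_of_le (hH h hh))) hHk
  · filter_upwards [Pool.Agent.R528.RM.tup_sieved hA Q hQ hcop hd] with ω hω k ε hε
    filter_upwards [hω k ε hε] with x hx H hH hHk
    rw [tupleCount_eq A (Pool.Agent.R528.RM.rhoW (∏ p ∈ Q, p))]
    exact hx H (fun h hh => Finset.mem_range.2 (Nat.lt_succ_of_le (hH h hh))) hHk
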